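import Pool.Agent.H933.RN.Stm2

set_option autoImplicit false

/-!
# The rate for perturbations on Banach spaces (`P_bann`)
-/

open MeasureTheory Metric Polynomial
open scoped Real InnerProductSpace NNReal

namespace Pool.Agent.H800.RN

open Pool.Agent.H933.RN Pool.Agent.H933.LL

lemma neg_log_le {d η : ℝ} (hd : 0 < d) (hη : 0 < η) : - Real.log d ≤ d ^ (-η) / η := by
  have h1 := Real.log_le_rpow_div (x := d⁻¹) (inv_nonneg.mpr hd.le) hη
  rw [Real.log_inv, Real.inv_rpow hd.le, ← Real.rpow_neg hd.le] at h1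
  exact h1

lemma one_le_rpow_neg {d η : ℝ} (hd : 0 < d) (hd1 : d ≤ 1) (hη : 0 < η) : 1 ≤ d ^ (-η) := by
  have h1 := Real.rpow_le_rpow_of_exponent_ge hd hd1 (show -η ≤ 0 by linarith)
  rwa [Real.rpow_zero] at h1

theorem p_bann : P_bann := by
  intro X _ _ _ S K E A θ hA hθ hG hK c hc
  obtain ⟨C₀, hC₀⟩ := hG
  obtain ⟨C₁, hC₁⟩ := hK
  have hη : 0 < A * θ := mul_pos hA hθ
  have a0 := abs_nonneg C₀
  have a1 := abs_nonneg C₁
  have h1c : 0 < 1 / c := by positivity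
  have hcc : 0 ≤ c * |C₁| := by positivity
  obtain ⟨B, hB⟩ : ∃ B, B = 2 * |C₀| + c * |C₁| + |C₁| + 1 / c + 1 := ⟨_, rfl⟩
  have hB1 : 1 ≤ B := by rw [hB]; linarith
  have hB0 : 0 < B := by linarith
  obtain ⟨D, hD⟩ : ∃ D, D = |C₁| * (2 * c * B) ^ θ + Real.log 2 + Real.log B + 1 / θ :=
    ⟨_, rfl⟩
  have hlog2 : 0 < Real.log 2 := Real.log_pos (by norm_num)
  have hlogB : 0 ≤ Real.log B := Real.log_nonneg hB1
  have hθ1 : 0 < 1 / θ := by positivity
  have hpow0 : 0 ≤ |C₁| * (2 * c * B) ^ θ :=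
    mul_nonneg (abs_nonneg _) (Real.rpow_nonneg (by positivity) _)
  refine ⟨D, ⟨fun z hz => (hC₀ z hz).1, fun d hd hd1 => ?_⟩⟩
  have hpw : pw (A * θ) d = d ^ (-(A * θ)) := by
    rw [pw, abs_of_pos hd]
  rw [hpw]
  obtain ⟨W, hW⟩ : ∃ W, W = d ^ (-(A * θ)) := ⟨_, rfl⟩
  rw [← hW]
  have hW1 : 1 ≤ W := by rw [hW]; exact one_le_rpow_neg hd hd1 hη
  obtain ⟨u, hu⟩ : ∃ u, u = d ^ (-A) := ⟨_, rfl⟩
  have hu1 : 1 ≤ u := by rw [hu]; exact one_le_rpow_neg hd hd1 hA
  have hu0 : 0 < u := by linarith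
  have huW : u ^ θ = W := by
    rw [hu, hW, ← Real.rpow_mul hd.le]
    congr 1
    ring
  obtain ⟨ρ, hρ⟩ : ∃ ρ, ρ = B * u := ⟨_, rfl⟩
  have hBρ : B ≤ ρ := by rw [hρ]; exact le_mul_of_one_le_right hB0.le hu1
  have hρ1 : 1 ≤ ρ := hB1.trans hBρ
  have hρ0 : 0 < ρ := by linarith
  -- the threshold
  obtain ⟨δ, hδ⟩ : ∃ δ, δ = 1 / (2 * c * ρ) := ⟨_, rfl⟩
  have hcρ : 1 ≤ 2 * c * ρ := by
    have h1 : 1 / c ≤ ρ := by linarith
    have h2 : c * (1 / c) ≤ c * ρ := mul_le_mul_of_nonneg_left h1 hc.le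
    rw [mul_one_div_cancel hc.ne'] at h2
    linarith
  have hδ0 : 0 < δ := by rw [hδ]; positivity
  have hδ1 : δ ≤ 1 := by
    rw [hδ, div_le_one (by linarith)]
    exact hcρ
  obtain ⟨n, φ, f, hn, hφ, hKf⟩ := hC₁ δ hδ0 hδ1
  have hδW : δ ^ (-θ) = (2 * c * B) ^ θ * W := by
    have h2 : δ ^ (-θ) = (2 * c * ρ) ^ θ := by
      rw [hδ, one_div, Real.inv_rpow (by linarith), ← Real.rpow_neg (by linarith), neg_neg]
    rw [h2, hρ, ← huW, ← Real.mul_rpow (by positivity) hu0.le]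
    congr 1
    ring
  refine ⟨n, fun i => (c : ℂ) • φ i, f, ρ, hρ1, ?_, ?_, fun i => ⟨?_, ?_⟩, fun z hz => ?_, ?_⟩
  · have hδw0 : 0 ≤ δ ^ (-θ) := Real.rpow_nonneg hδ0.le _
    have h2 : (n : ℝ) + 1 ≤ Real.exp (|C₁| * δ ^ (-θ)) * 2 := by
      have h3 : Real.exp (C₁ * δ ^ (-θ)) ≤ Real.exp (|C₁| * δ ^ (-θ)) :=
        Real.exp_le_exp.mpr (mul_le_mul_of_nonneg_right (le_abs_self C₁) hδw0)
      have h4 : 1 ≤ Real.exp (|C₁| * δ ^ (-θ)) :=
        Real.one_le_exp (mul_nonneg (abs_nonneg _) hδw0)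
      linarith
    have h3 : Real.log ((n : ℝ) + 1) ≤ |C₁| * δ ^ (-θ) + Real.log 2 := by
      have h4 := Real.log_le_log (by positivity) h2
      rw [Real.log_mul (Real.exp_pos _).ne' (by norm_num), Real.log_exp] at h4
      exact h4
    rw [hδW] at h3
    have h5 : 0 ≤ (Real.log 2 + Real.log B + 1 / θ) * W := by positivity
    have h7 : D * (1 + W) = |C₁| * ((2 * c * B) ^ θ * W) + Real.log 2 +
        (|C₁| * (2 * c * B) ^ θ + (Real.log B + 1 / θ) +
          (Real.log 2 + Real.log B + 1 / θ) * W) := by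
      rw [hD]; ring
    rw [h7]
    linarith
  · have hlρ0 : 0 ≤ Real.log ρ := Real.log_nonneg hρ1
    have h1 : Real.log (1 + Real.log ρ) ≤ Real.log ρ := by
      have h2 := Real.log_le_sub_one_of_pos (show 0 < 1 + Real.log ρ by linarith)
      linarith
    have h2 : Real.log ρ = Real.log B + A * (- Real.log d) := by
      rw [hρ, Real.log_mul hB0.ne' hu0.ne', hu, Real.log_rpow hd]
      ring
    have h3 : A * (- Real.log d) ≤ W / θ := by
      have h4 := mul_le_mul_of_nonneg_left (neg_log_le hd hη) hA.le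
      rw [← hW] at h4
      have h5 : A * (W / (A * θ)) = W / θ := by
        field_simp
      rw [h5] at h4
      exact h4
    have h4 : D * (1 + W) = Real.log B + W / θ +
        ((|C₁| * (2 * c * B) ^ θ + Real.log 2) * (1 + W) + Real.log B * W + 1 / θ) := by
      rw [hD]; ring
    have h5 : 0 ≤ (|C₁| * (2 * c * B) ^ θ + Real.log 2) * (1 + W) :=
      mul_nonneg (by linarith) (by linarith)
    have h6 : 0 ≤ Real.log B * W := mul_nonneg hlogB (by linarith)
    rw [h4]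
    linarith
  · rw [norm_smul, Complex.norm_real, Real.norm_eq_abs, abs_of_pos hc]
    have h1 : c * ‖φ i‖ ≤ c * |C₁| :=
      mul_le_mul_of_nonneg_left ((hφ i).1.trans (le_abs_self _)) hc.le
    linarith
  · have h1 := (hφ i).2.trans (le_abs_self _)
    linarith
  · have hzE : z ∉ E := by
      intro h
      rw [infDist_zero_of_mem h] at hz
      linarith
    have h1 := (hC₀ z hzE).2
    have h2 : infDist z E ^ (-A) ≤ u := by
      rw [hu]
      exact Real.rpow_le_rpow_of_nonpos hd hz (by linarith)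
    have h3 : 0 ≤ infDist z E ^ (-A) := Real.rpow_nonneg infDist_nonneg _
    have h4 : C₀ * (1 + infDist z E ^ (-A)) ≤ |C₀| * (1 + infDist z E ^ (-A)) :=
      mul_le_mul_of_nonneg_right (le_abs_self _) (by linarith)
    have h5 : |C₀| * (1 + infDist z E ^ (-A)) ≤ |C₀| * (2 * u) :=
      mul_le_mul_of_nonneg_left (by linarith) a0
    have h6 : |C₀| * (2 * u) ≤ ρ := by
      rw [hρ]
      have h7 : 2 * |C₀| ≤ B := by rw [hB]; linarith
      calc |C₀| * (2 * u) = (2 * |C₀|) * u := by ring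
        _ ≤ B * u := mul_le_mul_of_nonneg_right h7 hu0.le
    linarith
  · have h1 : (c : ℂ) • K - ∑ i, ((c : ℂ) • φ i).smulRight (f i) =
        (c : ℂ) • (K - ∑ i, (φ i).smulRight (f i)) := by
      rw [smul_sub, Finset.smul_sum]
      congr 1
      refine Finset.sum_congr rfl fun i _ => ?_
      ext x
      show ((c : ℂ) * φ i x) • f i = (c : ℂ) • (φ i x • f i)
      rw [smul_smul]
    rw [h1, norm_smul, Complex.norm_real, Real.norm_eq_abs, abs_of_pos hc]
    have h2 : c * ‖K - ∑ i, (φ i).smulRight (f i)‖ * ρ ≤ c * δ * ρ :=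
      mul_le_mul_of_nonneg_right (mul_le_mul_of_nonneg_left hKf hc.le) hρ0.le
    have h3 : c * δ * ρ = 1 / 2 := by
      rw [hδ]
      field_simp
    linarith

end Pool.Agent.H800.RN
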